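import Pool.Agent.Helper116.AG.Ff

set_option autoImplicit false

namespace Pool.Agent.Results.MP_cc9a35_lc.AllExponents

open Pool.Agent.Helper116.AG

/-- The set of achievable constants in `[1,2]` is the whole interval. -/
theorem result : {c : ℝ | c ∈ Set.Icc (1 : ℝ) 2 ∧ Achievable c} = Set.Icc (1 : ℝ) 2 := by
  ext c
  constructor
  · exact fun h => h.1
  · exact fun h => ⟨h, achievable_all c h.1 h.2⟩

end Pool.Agent.Results.MP_cc9a35_lc.AllExponents
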